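import Mathlib
import Pool.Agent.V7H82.CO.Main

/-!
# The case of coniveau one in degree three for varieties dominated by abelian varieties with doubly
# homogeneous complex multiplications, for all CM types

Let `E i` be finitely many CM fields, `Φ i` CM types of the `E i`, and let `A` be any product of powers
of the abelian varieties of CM type `(E i, Φ i)`. Let `Y` be a smooth projective variety whose Hodge
filtration is defined over a subfield `K` of the complex numbers and which satisfies the generalized
Hodge conjecture in coniveau one in degrees at most three (for example a curve or a surface over `K`, or
a point), and let `X` be any smooth projective variety dominated by `A × Y`. The first two degrees of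
Grothendieck's conjecture are known; we consider the degree three: if `h^(3, 0)(X) = 0`, does all of
`H³(X, ℚ)` vanish on a dense Zariski open subset of `X`?

We prove this for **all** CM types, without exceptions, if the complex embeddings of the CM fields
are in homogeneous classes. Two complex embeddings are *flipped* over `K` if some automorphism of `ℂ`
over `K` fixes one of them and conjugates the other, or moves the first to the second and the second to
the conjugate of the first; they are *linked* if they are in the same class of the equivalence relation
generated by not being flipped. The assumptions are:

* each class of linked embeddings consists of at most two pairs of conjugate embeddings; or any two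
  pairs in it can be moved to any two others by an automorphism over `K`, and the number of pairs is
  not one of `3`, `4`, `6`, `10`, `16`, `28` (`IsHomogeneousOver`);
* some automorphism over `K` conjugates all embeddings (for example if the elements of `K` are real);
* any two embeddings which are not equal or conjugate are mapped into the CM types by some
  automorphism over `K`; for `K = ℚ` this means that the abelian varieties of CM type `(E i, Φ i)` are
  simple and pairwise not isogenous, which is no restriction (`IsReducedOver`).

For example `E` can be the composite of an imaginary quadratic field and of a totally real field of
degree `g` not in the list whose Galois group is doubly transitive or doubly homogeneous on the `g`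
real embeddings, and `Φ` any CM type of `E` which is not induced from the imaginary quadratic field.
More generally (`TransfersUpTo K Φ 3`) the whole generalized Hodge conjecture in degrees at most three
passes from `Y` to `A × Y`.

The proof. One has to show that any three embeddings without conjugates among them are mapped into
the CM types by some automorphism over `K`. Suppose not. Let `W = 1` on the CM types and `W = - 1`
outside. For all automorphisms `σ` over `K` the sum `W(σ x) + W(σ y) + W(σ z)` is not `3` and not
`- 3` (use a conjugation), so its square is always `1`. Let `k(x, y)` be the sum of `W(σ x) W(σ y)` over
the finite group, of order `N`, of the permutations of the embeddings which are induced by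
automorphisms over `K`. Then `k(x, y) + k(x, z) + k(y, z) = - N`. The kernel `k` vanishes on flipped
embeddings, and `|k(x, y)| < N` as the types are reduced; so `x`, `y`, `z` are linked. In a doubly
homogeneous class the absolute value of `k` is the same for all pairs, so it is `N / 3`, and
`S = 3 k / N` outside the diagonal defines a signed complete graph on the `b` pairs with a negative
triangle, such that `S ^ 2 = (b - 1) + κ S` (a regular two-graph) and `3 + S` is positive semidefinite.
The smallest eigenvalue of `S` is an integer `- r`, `r ≤ 3`, or `κ = 0`. The multiplicities of the
eigenvalues, parities and, for `b = 64`, Gerzon's bound for equiangular lines show that `b` is `3`, `4`,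
`6`, `10`, `16` or `28` (`Pool.Agent.V7H82.CO.card_cases`).
-/

set_option autoImplicit false

namespace Pool.Agent.Results.MP_1c689d_ag.DoublyHomogeneousH82

open NumberField Pool.Agent.H204R3.CM Pool.Agent.X311.Cn1 Pool.Agent.X311.CmY Pool.Agent.V7H82.CO

/-- **Grothendieck's conjecture in degree three for the varieties dominated by `A × Y`, for all CM types
of CM fields with doubly homogeneous classes of embeddings**, and the generalized Hodge conjecture in
degrees at most three for `A × Y`. -/
theorem result {ι : Type} [Fintype ι] {E : ι → Type} [∀ i, Field (E i)] [∀ i, NumberField (E i)]
    [∀ i, IsCMField (E i)] (K : Subfield ℂ) (hE : IsHomogeneousOver K E)
    (hK : IsConjugationOver K E) (Φ : ∀ i, Set (E i →+* ℂ)) (hΦ : ∀ i, IsCMType (Φ i))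
    (hr : IsReducedOver K Φ) : ConiveauOneForCM K Φ 3 ∧ TransfersUpTo K Φ 3 := by
  have h := transfers_of_small hΦ (small_three hΦ hK hr hE)
  exact ⟨coniveauOneForCM_of hΦ h, h⟩

end Pool.Agent.Results.MP_1c689d_ag.DoublyHomogeneousH82
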