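import Mathlib
import Pool.Agent.V7H38.MP.Fac
import Pool.Agent.X311.Cn1
import Pool.Agent.N994.FH.J
import Pool.Agent.N994.FH.Cn1
import Pool.Agent.N178.HX.Parts

/-!
# The case of coniveau one for the varieties dominated by abelian varieties with many independent periods

Let `A` be a complex abelian variety of dimension `g` with a period matrix `Z` (symmetric, with positive
definite imaginary part) which has `D` entries which are algebraically independent over `ℚ`. The moduli
space has dimension `g (g + 1) / 2`, and we suppose only that `D > g ^ 2 / 4`, that is a little less than one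
half of this dimension is sufficient, and that `D > 4 + (g - 4) (g - 3) / 2` (this follows for `4 ≤ g ≤ 10`).
For instance: fourfolds with five independent periods, fivefolds with seven, sixfolds with ten. There is no
condition on the endomorphisms of `A`, `A` may be a product of other abelian varieties, and there is no
condition on the field generated by the periods.

Part 1. Grothendieck's conjecture in coniveau one is true, in all degrees, for all smooth projective
varieties `W` which are dominated by a power of `A` (`IsDominated`, from the starting file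
`Pool.Agent.N994.FH.Coh`), for instance the images of powers of `A` and of products of curves whose
Jacobians are products of factors of `A`: if `h^(i, 0)(W) = 0` then `H^i(W, ℚ)` vanishes on a dense
Zariski open subset of `W`. More generally `W` may be dominated by `X` where each simple factor of `X`

* is a factor of one such `A` (`ManyPeriods 3 A`), or
* has small or generic periods, as in the starting theorem `AbelianDominated` of this problem, or
* is a factor `Y` of dimension larger than `ρ` of an abelian variety `A` with `D > g ^ 2 / 4` and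
  `D > ((ρ + 1) ^ 2 + 2 (g - ρ - 1) (g - ρ)) / 4` algebraically independent periods (`LargeFactor Y`);
  here `ρ`, `g` and `A` can be different for each factor.

Part 2. For general `D` the abelian variety with the period matrix `Z` is isogenous to a product
`A₁ × A₂` where `dim A₂ = r` is small (`SmallQuotient g D r`: `r ≤ ρ` if `D` satisfies the inequalities
above), such that the generalized Hodge conjecture in coniveau one for a smooth projective variety `Y`
implies Grothendieck's conjecture in coniveau one for all smooth projective varieties which are dominated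
by `A₁ ^ n × Y`, for all `n`, if `Y` is of CM type or the periods of `Y` are in the field generated by
a subfield `K` of `ℂ` and the periods of `A₂`; here the `D` entries are algebraically independent over `K`.
If `r = 0` then this is true for `A ^ n × Y` where the periods of `Y` are in `K`. (In coniveau one the
generalized Hodge conjecture is true for curves and surfaces `Y`, by the Lefschetz theorem on divisor
classes.)

The proof. The derivations of `ℂ` give `D` independent tangent directions of the orbit of the period
matrix under the Hodge group, and so the complexified Lie algebra of the Hodge group of `A` acts on the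
homology of each simple factor, with the exception of some factors of total dimension at most `ρ`, as a
product of full symplectic Lie algebras (`Pool.Agent.X311.main_der'`). New here is that on such a factor
the Lie algebra which is generated by the conjugates of the complex structure is equal to the Lie algebra
of the Hodge group (`Pool.Agent.V7H38.MP.mem_LZ`, with a Casimir element), and so that these factors have
no complex multiplication, their endomorphism algebra is of Albert type I or II and the Hodge group is
equal to the Lefschetz group, and that all imaginary quadratic fields act on them with equal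
multiplicities. They can be used in the theorem on the generalized Hodge conjecture which is behind
`AbelianDominated` (Part 1).
-/

namespace Pool.Agent.Results.MP_1c689d_ag.IndependentPeriodsH38

open Module Pool.Agent.Y90 Pool.Agent.R915
open Pool.Agent.N994.PG (SmallPeriods GenericPeriods)
open Pool.Agent.N994.FH (Theory)
open Pool.Agent.V7H38.MP (ManyPeriods LargeFactor Nice)
open Pool.Agent.W546.GHC Pool.Agent.TH131.GHC Pool.Agent.TH504.CB
open Pool.Agent.X311 (IsPeriodMatrix IsIsogenousToProduct periodField HasFiltrationOver IsOfCMType)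
open Pool.Agent.X311.Cn1 (GHCOne IsDominated IsEffective)
open Pool.Agent.W437.HC (perPow)

/-- The simple factors of `X` are factors of one abelian variety `A` of dimension at most three or with
many independent periods, or have small or generic periods, or are large factors of abelian varieties
with many independent periods. -/
def IsGood (X : AV) : Prop :=
  ∃ A : AV, (finrank ℚ A.H ≤ 6 ∨ ManyPeriods 3 A) ∧
    ∀ Y, IsFactor Y X → IsFactor Y A ∨ SmallPeriods Y ∨ GenericPeriods Y ∨ LargeFactor Y

/-- **Grothendieck's conjecture in coniveau one for the smooth projective varieties which are dominated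
by abelian varieties with many independent periods.** -/
theorem dominated (𝒯 : Theory) (X : AV) (hX : IsGood X) : Pool.Agent.N994.FH.ConiveauOne 𝒯 X := by
  refine Pool.Agent.N994.FH.coniveauOne ?_
  obtain ⟨A, hA, hX⟩ := hX
  obtain ⟨A₀, hA₀, hfac⟩ : ∃ A₀ : AV, finrank ℚ A₀.H ≤ 6 ∧
      ∀ Y, IsFactor Y A → IsFactor Y A₀ ∨ Nice Y := by
    rcases hA with hA | hA
    · exact ⟨A, hA, fun Y hY => Or.inl hY⟩
    · exact hA.parts
  obtain ⟨K, _, T, hT, h⟩ := Pool.Agent.N178.HX.t_POW A₀ hA₀
  refine Pool.Agent.N178.HX.uncond' Pool.Agent.N178.HX.t_MAINT Pool.Agent.N178.HX.t_COV T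
    (fun _ : K => ()) (fun τ => ⟨τ (), fun _ _ => rfl⟩)
    (fun j => Or.inr (Or.inr ⟨Finset.univ, fun k => ⟨fun _ => rfl, fun _ => Finset.mem_univ k⟩, hT⟩))
    𝒯.alg X fun Y hY => ?_
  rcases hX Y hY with h1 | h1 | h1 | h1
  · rcases hfac Y h1 with h2 | h2
    · exact h A₀ (fun _ h3 => h3) Y h2
    · exact Or.inr ⟨h2.1, by have := h2.2.1; tauto, fun d hd => absurd hd (h2.2.2 d)⟩
  · obtain ⟨h2, h3, h4⟩ := Pool.Agent.N994.FH.typ_of_periods hY.1 (Or.inl h1)
    exact Or.inr ⟨h2, by tauto, fun d hd => absurd hd (h4 d)⟩
  · obtain ⟨h2, h3, h4⟩ := Pool.Agent.N994.FH.typ_of_periods hY.1 (Or.inr h1)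
    exact Or.inr ⟨h2, by tauto, fun d hd => absurd hd (h4 d)⟩
  · have h2 := h1.nice
    exact Or.inr ⟨h2.1, by have := h2.2.1; tauto, fun d hd => absurd hd (h2.2.2 d)⟩

/-- **Products with a variety.** -/
theorem products {g D : ℕ} (Z : Matrix (Fin g) (Fin g) ℂ) (hZ : IsPeriodMatrix Z) (K : Subfield ℂ)
    (p : Fin D → Fin g × Fin g) (hp : AlgebraicIndependent K fun s => Z (p s).1 (p s).2) :
    ∃ (b r : ℕ) (Z₁ : Matrix (Fin b) (Fin b) ℂ) (Z₂ : Matrix (Fin r) (Fin r) ℂ),
      IsPeriodMatrix Z₁ ∧ IsPeriodMatrix Z₂ ∧ IsIsogenousToProduct Z Z₁ Z₂ ∧ b + r = g ∧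
      SmallQuotient g D r ∧
      (∀ (v : ℕ) (V : Coh v) (N : Submodule ℚ (Fin v → ℚ)),
        IsOfCMType V ∨ HasFiltrationOver (periodField K Z₂) V → GHCOne V N →
        ∀ (n x : ℕ) (H : Coh x) (NX : Submodule ℚ (Fin x → ℚ)),
          IsDominated (perPow Z₁ n) V N H NX → IsEffective H →
          Pool.Agent.X311.Cn1.ConiveauOne H NX) ∧
      (r = 0 → ∀ (v : ℕ) (V : Coh v) (N : Submodule ℚ (Fin v → ℚ)),
        IsOfCMType V ∨ HasFiltrationOver K V → GHCOne V N →
        ∀ (n x : ℕ) (H : Coh x) (NX : Submodule ℚ (Fin x → ℚ)),
          IsDominated (perPow Z n) V N H NX → IsEffective H →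
          Pool.Agent.X311.Cn1.ConiveauOne H NX) := by
  obtain ⟨b, r, Z₁, Z₂, h1, h2, h3, h4, h5, h6, h7⟩ :=
    Pool.Agent.X311.ghc_periods Z hZ.1 hZ.2 K p hp
  refine ⟨b, r, Z₁, Z₂, h1, h2, h3, h4, h5, fun v V N hV hN n x H NX hd he => ?_,
    fun hr v V N hV hN n x H NX hd he => ?_⟩
  · exact Pool.Agent.X311.Cn1.coniveauOne_of_ghc hd he
      (h6 v V hV _ (Pool.Agent.X311.Cn1.ghcz_filt hN) n)
      (Pool.Agent.X311.Cn1.uniq_of_span (Pool.Agent.X311.Cn1.span_perPow Z₁ h1.2 n))
  · exact Pool.Agent.X311.Cn1.coniveauOne_of_ghc hd he
      (h7 hr v V hV _ (Pool.Agent.X311.Cn1.ghcz_filt hN) n)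
      (Pool.Agent.X311.Cn1.uniq_of_span (Pool.Agent.X311.Cn1.span_perPow Z hZ.2 n))

/-- **Grothendieck's conjecture in coniveau one for the varieties which are dominated by abelian
varieties with many algebraically independent periods**, and by their products with a variety `Y`. -/
theorem result :
    (∀ (𝒯 : Theory) (X : AV), IsGood X → Pool.Agent.N994.FH.ConiveauOne 𝒯 X) ∧
    ∀ {g D : ℕ} (Z : Matrix (Fin g) (Fin g) ℂ), IsPeriodMatrix Z → ∀ (K : Subfield ℂ)
      (p : Fin D → Fin g × Fin g), (AlgebraicIndependent K fun s => Z (p s).1 (p s).2) →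
      ∃ (b r : ℕ) (Z₁ : Matrix (Fin b) (Fin b) ℂ) (Z₂ : Matrix (Fin r) (Fin r) ℂ),
        IsPeriodMatrix Z₁ ∧ IsPeriodMatrix Z₂ ∧ IsIsogenousToProduct Z Z₁ Z₂ ∧ b + r = g ∧
        SmallQuotient g D r ∧
        (∀ (v : ℕ) (V : Coh v) (N : Submodule ℚ (Fin v → ℚ)),
          IsOfCMType V ∨ HasFiltrationOver (periodField K Z₂) V → GHCOne V N →
          ∀ (n x : ℕ) (H : Coh x) (NX : Submodule ℚ (Fin x → ℚ)),
            IsDominated (perPow Z₁ n) V N H NX → IsEffective H →
            Pool.Agent.X311.Cn1.ConiveauOne H NX) ∧
        (r = 0 → ∀ (v : ℕ) (V : Coh v) (N : Submodule ℚ (Fin v → ℚ)),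
          IsOfCMType V ∨ HasFiltrationOver K V → GHCOne V N →
          ∀ (n x : ℕ) (H : Coh x) (NX : Submodule ℚ (Fin x → ℚ)),
            IsDominated (perPow Z n) V N H NX → IsEffective H →
            Pool.Agent.X311.Cn1.ConiveauOne H NX) :=
  ⟨dominated, fun Z hZ K p hp => products Z hZ K p hp⟩

end Pool.Agent.Results.MP_1c689d_ag.IndependentPeriodsH38
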