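import Pool.Agent.V7H74.ImgFin
import Pool.Agent.V7H74.Sk3

/-!
# The case of coniveau one in the degree of the dimension for images of products of varieties

Let `V = X 0 × ... × X k`, where the `X i` are smooth projective complex varieties of dimension `m i`,
let `n = ∑ m i`, and let `V ⇢ Y` be any dominant rational map of finite degree to a smooth projective
variety `Y` of dimension `n`. We consider Grothendieck's question for `Y` in the degree `i = n`: if
`h^(n, 0)(Y) = 0`, does `H^n(Y, ℚ)` vanish on a dense Zariski open subset `U` of `Y`?

**The question in terms of differential forms.** By the theorem of Grothendieck on algebraic de Rham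
cohomology, the direct limit of the `H^n(U, ℂ)` for all dense open subsets `U` of `Y` is the space
of all rational `n`-forms on `Y` modulo the exact ones (`IsExact`), and the image of `H^n(Y, ℂ)`
consists of classes of forms of the second kind: for each prime divisor `P` on each smooth projective
model of `Y` the restriction of the class to an open subset which meets `P` is represented by a form
which is regular there, so the form is the sum of an exact form and of a form which is regular at `P`
(`SecondKind`). So `H^n(Y, ℚ)` vanishes on a dense open subset if all forms of the second kind are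
exact. (These standard facts are not formalised here; the theorem is about the forms of the second
kind.) For `n = 1` these are the classical differentials of the second kind.

**Theorem.** Suppose that the canonical forms of `X i` separate `s i > 0` general points, and that
for all nonempty sets `A` of factors, except possibly the sets `A = {j}` where `X j` is a curve,

`r(Aᶜ) ≤ 1 + ∑ i ∈ A, (s i - 1)`,

where `r(S)` is the number of points of a general fibre of `V ⇢ Y` with the same coordinates in the
factors in `S` as a given one; so `r(∅)` is the degree. If `h^(n, 0)(Y) = 0` then `Y` is uniruled, and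
every rational `n`-form of the second kind on `Y` is exact. So `H^n(Y, ℚ)` vanishes on a dense open
subset.

For example, let the `X i` be `n ≥ 2` curves of gonality at least `γ`, such that different points
of the general fibre have different coordinates in every factor; then the degree may be any number up
to `n (γ - 2) + 1`. The Lean theorem is more general: the factors can be divided into blocks
`b = t`, and the condition is

`r((b ≤ t) ∖ A) ≤ r(b ≤ t) * (1 + ∑ i ∈ A, (s i - 1))`

for the nonempty sets `A` of factors in the block `t`, except possibly for `A = {j}` where `X j` is a
curve in the last block. A curve which is alone in the last block may be arbitrary, also rational.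

Proof. By the theorem for `MP_e06174_ag` (`SpreadFibresUniruledH74`), which uses the traces of the
products of canonical forms and a theorem of Hall type, `Y` is uniruled if its geometric genus is
zero. It remains to show that the forms of the second kind on a uniruled variety are exact
(`Pool/Agent/V7H74/Sk1`, `Sk2`, `Sk3`). This is well known; the proof in Lean is direct. Let the
function field `L` of `Y` be embedded in `M(X)`, where `M` is a function field of dimension `n - 1`. After
a finite extension of `M` all poles of the pulled back form `ω` are of the form `X = θ`, `θ ∈ M`. Up
to a derivative with respect to `X` the coefficient of `ω` is a sum of simple poles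
`a_θ / (X - θ)`. The residue `a_θ`, an `(n - 1)`-form on `M`, is exact, since `ω` is of the second
kind at `X = θ` and since the residue of an exact form is exact (functional determinants are
divergences). Hence `ω` is exact on `M(X)`, and with the trace from `M(X)` to `L` it follows that it is
exact on `Y`.

The parts of the Lean proof on products, traces and the geometric generic fibre are from the
starting files (`N145/SX` and the files which it imports), those on the places and the vector fields
of `M(X)` from `Y184/NT`, `Y888/NT`, `Y929/NT` and `Y172`.
-/

set_option autoImplicit false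
set_option linter.overlappingInstances false
set_option maxHeartbeats 4000000
set_option synthInstance.maxHeartbeats 400000

open FF Module Pool.Agent Pool.Agent.W602.GT
open Pool.Agent.W619.PQ (IsUniruled)
open Pool.Agent.V7H74.SK (IsExact SecondKind)

namespace Pool.Agent.Results.MP_1c689d_ag.SecondKindProductsH74

/-- **The canonical forms separate `r` points.** `E` is the function field of a variety `X` of
dimension `m`, and `D` a rational frame of the tangent bundle. The embeddings `σ : E → Ω` are the
generic points of `X` with coordinates in the field `Ω`. At most `r` different such points impose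
independent conditions on the canonical forms `ω` which are regular at all prime divisors: if
`∑ c σ * σ (ω D) = 0` for all `ω` then all the coefficients `c σ` are zero. -/
def SeparatesPoints (E : Type) [Field E] [Algebra ℂ E] (m r : ℕ) : Prop :=
  ∀ D : Fin m → Derivation ℂ E E, LinearIndependent E D →
    ∀ (Ω : Type) [Field Ω] [Algebra ℂ Ω] [IsAlgClosed Ω] (A : Finset (E →ₐ[ℂ] Ω)), A.card ≤ r →
    ∀ c : (E →ₐ[ℂ] Ω) → Ω,
    (∀ ω : (Fin m → Derivation ℂ E E) → E, IsPluri 1 ω →
      (∀ P : Place ℂ E, Divisorial m P → RegAt P ω) → ∑ σ ∈ A, c σ * σ (ω D) = 0) →
    ∀ σ ∈ A, c σ = 0

/-- The Hodge number `h^(n, 0)` of the varieties with function field `L`, of dimension `n`, is zero: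
the only `n`-form which is regular at all prime divisors is `0`. -/
def GenusZero (L : Type) [Field L] [Algebra ℂ L] (n : ℕ) : Prop :=
  ∀ ω : (Fin n → Derivation ℂ L L) → L, IsPluri 1 ω →
    (∀ P : Place ℂ L, Divisorial n P → RegAt P ω) → ∀ D, ω D = 0

variable {K : Type} [Field K] [Algebra ℂ K] {k : ℕ}

/-- The number of points of a general fibre of `V ⇢ Y` which have the same coordinates in the factors
in `S` as a given point of the fibre. Here `K` and `L` are the function fields of `V` and `Y`, and
`F i` is the one of the factor `X i`: it is the degree of `K` over the field which is generated over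
`L` by the `F i`, `i ∈ S`. -/
noncomputable def agree (F : Fin (k + 1) → IntermediateField ℂ K) (L : Type) [Field L]
    [Algebra L K] (S : Set (Fin (k + 1))) : ℕ :=
  finrank (IntermediateField.adjoin L {z | ∃ i ∈ S, z ∈ F i}) K

/-- **The counting condition** for the dimensions `m i`, the numbers `s i` of points and the blocks
`b = t`. -/
def IsSpread (F : Fin (k + 1) → IntermediateField ℂ K) (L : Type) [Field L]
    [Algebra L K] (m s b : Fin (k + 1) → ℕ) : Prop :=
  ∀ (t : ℕ) (A : Finset (Fin (k + 1))), A.Nonempty → (∀ i ∈ A, b i = t) →
    agree F L {i | b i ≤ t ∧ i ∉ A} ≤ agree F L {i | b i ≤ t} * (1 + ∑ i ∈ A, (s i - 1)) ∨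
    ∃ j, A = {j} ∧ m j = 1 ∧ ∀ i, b i ≤ b j

/-- **Coniveau one in the degree of the dimension for images of products of varieties.** Let `K` be
the function field of the product `V` of the varieties `X i`, `i ≤ k`, with the function fields `F i`,
of dimension `m i`, and let `L ⊆ K` be the function field of a variety `Y` such that the extension is
finite; `n = ∑ m i`. Suppose that the canonical forms of `X i` separate `s i` points, where `s i > 0`,
except possibly if `X i` is a curve which is alone in the last block, and that the counting
condition holds. If `h^(n, 0)(Y) = 0` then `Y` is uniruled and every `n`-form of the second kind on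
`Y` is exact. -/
theorem result [Algebra.EssFiniteType ℂ K] (m s b : Fin (k + 1) → ℕ)
    (F : Fin (k + 1) → IntermediateField ℂ K) [∀ i, Algebra.EssFiniteType ℂ (F i)]
    (hF : ⨆ i, F i = ⊤) (hm : ∀ i, Algebra.trdeg ℂ (F i) = m i)
    (hK : Algebra.trdeg ℂ K = (∑ i, m i : ℕ)) (L : Type) [Field L] [Algebra ℂ L]
    [Algebra L K] [IsScalarTower ℂ L K] [FiniteDimensional L K]
    (hs : ∀ i, 1 ≤ s i ∨ (m i = 1 ∧ ∀ j, j ≠ i → b j < b i))
    (hX : ∀ i, SeparatesPoints (F i) (m i) (s i)) (hW : IsSpread F L m s b)
    (hg : GenusZero L (∑ i, m i)) :
    IsUniruled ℂ L (∑ i, m i) ∧
      ∀ ω : (Fin (∑ i, m i) → Derivation ℂ L L) → L, SecondKind ω → IsExact ω := by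
  choose x D hx hD using fun i => Pool.Agent.Y172.exists_crd (hm i)
  have hsep : ∀ i, N145.SX.SepX (x i) (fun _ => False) (s i + 1) := fun i =>
    N145.SX.sepX_of' (hx i) (hD i) fun Ω _ _ _ A hA c hc =>
      hX i (D i) (N145.SX.dual_indep (hD i)) Ω A hA c hc
  have hW' : V7H74.HL.Spr F L m s b 1 := by
    intro t A hA hAt
    rcases hW t A hA hAt with h | h
    · left
      rw [one_mul]
      exact h
    · exact Or.inr h
  have h1 := V7H74.HL.one_tfae (L := L) hF hm hK hx hs hsep hW'
  have hu : IsUniruled ℂ L (∑ i, m i) := (h1.out 0 3).1 hg
  have hess : Algebra.EssFiniteType ℂ L := Pool.Agent.TH466.QG.ess_below (K := K)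
  have hL : Algebra.trdeg ℂ L = (∑ i, m i : ℕ) := Pool.Agent.Y184.NT.trdeg_below (K := K) hK
  exact ⟨hu, fun ω hω => V7H74.SK.exact_of_uniruled hL hu hω⟩

end Pool.Agent.Results.MP_1c689d_ag.SecondKindProductsH74
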