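import Pool.Agent.V7H74.MgS
import Pool.Agent.V7H74.Sk3
import Pool.Agent.Results.MP_813db1_ag.ImagesProductOfLines

/-!
# The case of coniveau one in the degree of the dimension for images of complete intersections

Let `Y` be a smooth projective complex variety of dimension `n`, dominated by one of the varieties
`V` of dimension `n` below. We consider Grothendieck's question for `Y` in the degree `i = n`: if
`h^(n, 0)(Y) = 0`, does `H^n(Y, ℚ)` vanish on a dense Zariski open subset `U` of `Y`? This is the
essential degree: if `V` is an ample complete intersection then, by the Lefschetz hyperplane theorem,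
`H^i(Y, ℚ)` for `0 < i < n` is spanned, up to classes supported on divisors, by classes of algebraic
cycles, so it vanishes on a dense open subset.

**The question in terms of differential forms.** By the theorem of Grothendieck on algebraic de Rham
cohomology, the direct limit of the `H^n(U, ℂ)` for all dense open subsets `U` of `Y` is the space
of all rational `n`-forms on `Y` modulo the exact ones (`IsExact`), and the image of `H^n(Y, ℂ)`
consists of classes of forms of the second kind: for each prime divisor `P` on each smooth projective
model of `Y` the restriction of the class to an open subset which meets `P` is represented by a form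
which is regular there, so the form is the sum of an exact form and of a form which is regular at `P`
(`SecondKind`). So `H^n(Y, ℚ)` vanishes on a dense open subset if all forms of the second kind are
exact. (These standard facts, and the Lefschetz theorem, are not formalised here; the theorem is
about the forms of the second kind.)

**The varieties `V`.** (a) `V` is a component of the set of common zeros in a torus
`(ℂ^*) ^ (n + q)` of a system `f` of Laurent polynomials which is nondegenerate in the sense of
Khovanskii, with arbitrary Newton polytopes. Some monomials `t_j = x ^ (w_j)` are given, divided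
into blocks, where `β j` is the block of `t_j`, and `E` is the image of `V` under these monomials,
where `ℂ(V) = ℂ(t)(y)` for a monomial `y = x ^ v`. The `M_l` are numbers such that for some `u` the
`u + j v + ∑_i a_i w_i` are in the Fine interior of the Newton polytopes, for all `j < c(all)` and
all `a_i ≥ 0` with sum at most `M_l` over the block `l`, for each `l` (`HasBox`; the numbers `c` are
defined below). For example, let `V` be a nondegenerate hypersurface of multidegree
`(d_1, ..., d_p, d_0)` in a product of projective spaces of dimensions `n_1, ..., n_p` and `1`,
where the `t_j` are the affine coordinates of the first `p` factors and `y` is the coordinate of the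
last one. Then `E` is the product of the first `p` factors, and `M_l = d_l - n_l - 1` is possible, if
these numbers are not negative and `c(all) < d_0`.

(b) `V` is a smooth complete intersection, of any codimension `q`, in the product of the projective
lines with the coordinates `x_i`, `i = 1, ..., n + q`, with canonical divisor `O(m_i)`, where all
`m_i ≥ 0`; `E` is the image of `V` under the projection which forgets one coordinate `x_{i0}`, and
each block consists of one coordinate `x_i`, `i ≠ i0`, with `M_i = m_i`.

**The counting condition.** Let `V ⇢ Y` be any dominant rational map of degree `r`. For a set `S` of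
functions `t_j` (or `x_i`, `i ≠ i0`) let `c(S)` be the number of the points of the general fibre of
`V ⇢ Y` where the functions in `S` have the same values as in a given point of the fibre; so
`c(∅) = r`. The blocks spread the fibres if for some order of the blocks, with ties, given by numbers
`b_l`, for all `s` and all nonempty sets `A` of blocks with `b = s`,
`c(the blocks with b ≤ s which are not in A) ≤ c(the blocks with b ≤ s) (1 + ∑_{l ∈ A} M_l)`
(`Spread`, `SpreadC`).

**Theorem.** Suppose that one of the following holds.

(1) (`SpreadImage`) Let `V = V 0 ⇢ V 1 ⇢ ... ⇢ V k` be a tower, where each `V j`, `j < k`, is as in (a)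
(`SpreadTower`) or as in (b) (`SpreadLines`), `V (j + 1)` is its image `E`, `V k` is uniruled, and if
`V ⇢ Y` factors through `V j` and not through `V (j + 1)` then the blocks of `V j` spread the fibres of
`V j ⇢ Y`. Or let `V` be as in (a), let `E` be uniruled, and for each block let all `t_j` in the block
be constant on the general fibres of `V ⇢ Y`, or let the `t_j` in the block take different values at
any two points of the general fibre with different images in `E`; let `B` be the set of the blocks
of the second kind, and `r ≤ c(all) (1 + ∑_{l ∈ B} M_l)` if `B` is not empty.

(2) `V` is a smooth hypersurface of multidegree `(m_i + 2)` in the product of `n + 1` projective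
lines, each `x_i`, `i ≠ i0`, is constant on the general fibres of `V ⇢ Y` or takes different values
at all the points of the general fibre (this holds for all maps of prime degree), and
`r ≤ 1 + ∑_{i ∈ B} m_i`, if the set `B` of the coordinates of the second kind is not empty.

(3) `V` is a smooth hypersurface of multidegree `(m_i + 2)` in the product of `n + 1` projective
lines, and `r ≤ 1 + 2 m_i` for all `i` (there is no condition on the map `V ⇢ Y` except for its degree).

If `h^(n, 0)(Y) = 0` then `Y` is uniruled and every rational `n`-form of the second kind on `Y` is
exact. So `H^n(Y, ℚ)` vanishes on a dense open subset.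

Proof. By the theorem for `MP_813db1_ag` (`SpreadImagesNonvanishingH74`) in the cases (1), (2), and by
the starting theorem `ImagesProductOfLines` in the case (3), `Y` is uniruled if its geometric genus is
zero. (The canonical forms on `V` have traces on `Y`; if they all vanish, this is a relation for the
general fibre, which is restricted to parts of the fibre by a theorem of Hall type.) It remains to
show that the forms of the second kind on a uniruled variety are exact (`Pool/Agent/V7H74/Sk1`,
`Sk2`, `Sk3`). This is well known; the proof in Lean is direct. Let the function field `L` of `Y` be
embedded in `M(X)`, where `M` is a function field of dimension `n - 1`. After a finite extension of `M`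
all poles of the pulled back form `ω` are of the form `X = θ`, `θ ∈ M`. Up to a derivative with respect
to `X` the coefficient of `ω` is a sum of simple poles `a_θ / (X - θ)`. The residue `a_θ`, an
`(n - 1)`-form on `M`, is exact, since `ω` is of the second kind at `X = θ` and since the residue of an
exact form is exact (functional determinants are divergences). Hence `ω` is exact on `M(X)`, and with
the trace from `M(X)` to `L` it follows that it is exact on `Y`.

`K` and `L` are the function fields of `V` and `Y`. `GenusZero L n`: there is no nonzero canonical
form, regular on all smooth projective varieties with function field `L`. `IsUniruled`: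
`Pool/Agent/W619`. `Nondegenerate`, `IsTorusPoint`, `InFine`: `Pool/Agent/R882/HT.lean`; `IsSmooth`,
`IsGenericPoint`: `Pool/Agent/R882/HL.lean` and the starting file `ImagesProductOfLines`. `HasBox`,
`Spread`, `SpreadTower`, `SpreadLines`, `SharpToricImage`, `SharpLinesImage`, `SpreadImage`:
`Pool/Agent/V7H74/Mg.lean`, `MgT.lean`, `MgL.lean`, `MgR.lean`, `MgS.lean`.
-/

set_option autoImplicit false
set_option linter.overlappingInstances false
set_option maxHeartbeats 4000000
set_option synthInstance.maxHeartbeats 400000

open FF Module Pool.Agent.W602.GT
open Pool.Agent.W619.PQ (IsUniruled)
open Pool.Agent.R882.HT (GenusZero)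
open Pool.Agent.V7H74.MG
open Pool.Agent.V7H74.SK (IsExact SecondKind)
open Pool.Agent.Results.MP_813db1_ag.ImagesProductOfLines (IsSmooth IsGenericPoint)

namespace Pool.Agent.Results.MP_1c689d_ag.SecondKindTowersH74

/-- **Coniveau one in the degree of the dimension for images of complete intersections.** -/
theorem result {n : ℕ} (hn : 1 ≤ n) {K : Type} [Field K] [Algebra ℂ K]
    [Algebra.EssFiniteType ℂ K] (hK : Algebra.trdeg ℂ K = (n : ℕ))
    (L : Type) [Field L] [Algebra ℂ L] [Algebra L K] [IsScalarTower ℂ L K]
    [FiniteDimensional L K]
    (h :
      -- (1) towers, and one step with sharp fibres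
      SpreadImage n 1 (fun E _ _ => IsUniruled ℂ E n) K L ∨
      -- (2) hypersurfaces in products of lines with sharp fibres
      (∃ (F : MvPolynomial (Fin (n + 1)) ℂ) (m : Fin (n + 1) → ℕ) (x : Fin (n + 1) → K)
        (i0 : Fin (n + 1)) (B : Finset (Fin (n + 1))), SharpLinesImage L n 1 F m x i0 B) ∨
      -- (3) hypersurfaces in products of lines, maps of small degree
      (∃ (F : MvPolynomial (Fin (n + 1)) ℂ) (m : Fin (n + 1) → ℕ) (x : Fin (n + 1) → K),
        (∀ i, F.degreeOf i ≤ m i + 2) ∧ IsSmooth (fun i => m i + 2) F ∧ IsGenericPoint F x ∧
        ∀ i, finrank L K ≤ 1 + 2 * m i))
    (hg : GenusZero L n) :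
    IsUniruled ℂ L n ∧
      ∀ ω : (Fin n → Derivation ℂ L L) → L, SecondKind ω → IsExact ω := by
  have hess : Algebra.EssFiniteType ℂ L := Pool.Agent.TH466.QG.ess_below (K := K)
  have hL : Algebra.trdeg ℂ L = (n : ℕ) := Pool.Agent.Y184.NT.trdeg_below (K := K) hK
  have hu : IsUniruled ℂ L n := by
    rcases h with h | ⟨F, m, x, i0, B, hV⟩ | ⟨F, m, x, hdeg, hs, hx, hr⟩
    · exact (dich_image (Pool.Agent.R882.HT.descends_uniruled n) hK L).1 h hg
    · exact Pool.Agent.R882.HQ.uniruled_of_unirational hn
        (hyp_sharp (L := L) hV.cover hV.coordinates hV.positive hV.degree (Or.inl ⟨rfl, hg⟩)).2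
    · obtain ⟨μ, hμ, i, hi⟩ : ∃ μ : ℕ, (∀ i, μ ≤ m i) ∧ ∃ i, m i = μ := by
        obtain ⟨i, -, hi⟩ := Finset.exists_min_image Finset.univ m ⟨0, Finset.mem_univ _⟩
        exact ⟨m i, fun j => hi j (Finset.mem_univ j), i, rfl⟩
      have hF0 : F ≠ 0 := by
        rintro rfl
        obtain ⟨l, hl⟩ := hs ∅ (fun _ => 0) (by
          rw [Pool.Agent.R882.PL.chart]
          simp)
        apply hl
        rw [Pool.Agent.R882.PL.chart]
        simp
      have h1 := (Pool.Agent.Results.MP_813db1_ag.ImagesProductOfLines.result hn hμ hF0 hdeg hx
        (Or.inl ⟨hs, fun i => rfl⟩) L).2 (by rw [← hi]; have := hr i; omega)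
      exact (h1.out 0 3).1 hg
  exact ⟨hu, fun ω hω => Pool.Agent.V7H74.SK.exact_of_uniruled hL hu hω⟩

end Pool.Agent.Results.MP_1c689d_ag.SecondKindTowersH74
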